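import Pool.Agent.KF4.Fin
import Pool.Agent.GL.Loc
import Pool.Agent.CW.Defs

/-!
# Finite part of `K4`: cluster form

Nodes are disjoint vertex clusters carrying a spanning tree and one more element, rungs are
elements joining two clusters, gadgets are elements of `cl S` with exactly one location in each
cluster of their support and no other location.
-/

open Set BIC
open scoped Matroid

namespace KF4

variable {α V : Type*}

open Gad in
/-- **Finite part, cluster form.** -/
theorem fin_cl {M : Matroid α} [M.Finite] {S : Set α} {ends : α → Sym2 V} (hB : Bic M S ends)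
    {A : Set V} (hAf : A.Finite) (hSA : ∀ e ∈ S, ∀ v ∈ ends e, v ∈ A) (hA : VConn S ends A)
    {n g k : ℕ} (hk : 2 ≤ k) (hn : n = g + k)
    {W : Fin n → Set V} (hWd : ∀ i j, i ≠ j → Disjoint (W i) (W j))
    {τ : Fin n → Set α} (hτ : ∀ i, Arb S ends (W i) (τ i))
    {p : Fin n → α} (hp : ∀ i, p i ∈ ins S ends (W i)) (hpτ : ∀ i, p i ∉ τ i)
    {G : Fin g → α} (sup : Fin g → Finset (Fin n)) (hne : ∀ t, (sup t).Nonempty)
    (hG : ∀ t, G t ∈ M.closure S) (v : Fin g → Fin n → V)
    (hv : ∀ t, ∀ i ∈ sup t, v t i ∈ W i)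
    (hloc : ∀ t, CWL.Loc M S ends (G t) = v t '' (sup t : Set (Fin n)))
    (la lb : ℕ → Fin n) (hlab : ∀ l < 2 * k, la l ≠ lb l) (T : ℕ → Finset α)
    (hT : ∀ l < 2 * k, 2 ^ (n + g + 2 * k) < (T l).card)
    (hTe : ∀ l < 2 * k, ∀ e ∈ T l, e ∈ S ∧
      ∃ x ∈ W (la l), ∃ y ∈ W (lb l), ends e = s(x, y))
    (cert : ∀ Q ∈ (Finset.range (2 * k)).powersetCard k,
      ∃ (c : Fin g → Fin n) (rk : Fin g → ℕ) (σ : ℕ → Fin n), Function.Injective c ∧
        (∀ t, c t ∈ sup t) ∧ (∀ s t, s ≠ t → c t ∈ sup s → rk t < rk s) ∧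
        (∀ l, σ l = la l ∨ σ l = lb l) ∧ InjOn σ Q ∧ ∀ l ∈ Q, ∀ t, σ l ≠ c t) :
    HasUniformMinor M k := by
  classical
  have hFi : ∀ i, FullB S ends (W i) (insert (p i) (τ i)) := by
    intro i
    refine FullB.of_arb (e := p i) (insert_subset (hp i) (hτ i).1) (mem_insert _ _) ?_
    have e : insert (p i) (τ i) \ {p i} = τ i := by
      ext x
      simp only [mem_sdiff, mem_insert_iff, mem_singleton_iff]
      constructor
      · rintro ⟨h | h, h'⟩
        · exact absurd h h'
        · exact h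
      · intro h
        exact ⟨Or.inr h, fun h' => hpτ i (h' ▸ h)⟩
    rw [e]
    exact hτ i
  have hWA : ∀ i, W i ⊆ A := by
    intro i w hw
    obtain ⟨h1, φ, h2, h3⟩ := hFi i
    obtain ⟨e, he, rfl⟩ := h2.surjOn hw
    exact hSA e (h1 he).1 _ (h3 e he)
  have hWf : ∀ i, (W i).Finite := fun i => hAf.subset (hWA i)
  -- union over a set of nodes
  have hFJ : ∀ J : Finset (Fin n), FullB S ends (⋃ i ∈ J, W i)
      (⋃ i ∈ J, insert (p i) (τ i)) := by
    intro J
    exact FullB.biUnion J W (fun i => insert (p i) (τ i)) (fun i _ => hFi i)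
      (fun i _ j _ hij => hWd i j hij)
  set C : Set α := ⋃ i, τ i with hC
  have hpp : ∀ i j, p i ∈ ins S ends (W j) → i = j := by
    intro i j h
    by_contra hij
    exact Set.disjoint_left.1 (ins_disj (S := S) (ends := ends) (hWd i j hij)) (hp i) h
  have hpinj : Function.Injective p := by
    intro i j h
    exact hpp i j (by rw [h]; exact hp j)
  have hpC : ∀ i, p i ∉ C := by
    intro i h
    obtain ⟨j, hj⟩ := mem_iUnion.1 h
    have := hpp i j ((hτ j).1 hj)
    subst this
    exact hpτ i hj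
  have eU : ⋃ i ∈ (Finset.univ : Finset (Fin n)), insert (p i) (τ i) = C ∪ range p := by
    ext x
    simp only [Finset.mem_univ, iUnion_true, mem_iUnion, mem_insert_iff, mem_union, mem_range, hC]
    constructor
    · rintro ⟨i, rfl | h⟩
      · exact Or.inr ⟨i, rfl⟩
      · exact Or.inl ⟨i, h⟩
    · rintro (⟨i, h⟩ | ⟨i, rfl⟩)
      · exact ⟨i, Or.inr h⟩
      · exact ⟨i, Or.inl rfl⟩
  have hFU := hFJ Finset.univ
  have hI : M.Indep (C ∪ range p) := eU ▸ hFU.indep hB
  -- subsets of the union of the clusters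
  have hbig : ∀ i, ins S ends (W i) ⊆ ins S ends (⋃ i ∈ (Finset.univ : Finset (Fin n)), W i) := by
    intro i
    refine ins_mono ?_
    intro w hw
    simp only [Finset.mem_univ, iUnion_true, mem_iUnion]
    exact ⟨i, hw⟩
  have hUf : ∀ J : Finset (Fin n), (⋃ i ∈ J, W i).Finite := by
    intro J
    refine hAf.subset ?_
    intro w hw
    simp only [mem_iUnion] at hw
    obtain ⟨i, _, hw⟩ := hw
    exact hWA i hw
  have hcl : M.closure (C ∪ range p) =
      M.closure (ins S ends (⋃ i ∈ (Finset.univ : Finset (Fin n)), W i)) := by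
    rw [← eU]
    exact hFU.closure hB (hUf _)
  -- locations
  have hlocA : ∀ t, ∀ w, w ∉ v t '' (sup t : Set (Fin n)) →
      G t ∈ Hx M S ends w := by
    intro t w hw
    rw [← hloc t] at hw
    by_contra hcon
    exact hw hcon
  have hGJ : ∀ t, G t ∈ M.closure (ins S ends (⋃ i ∈ sup t, W i)) := by
    intro t
    refine loc_closure hB hAf hSA hA (hG t) _ (⋃ i ∈ sup t, W i) _ rfl ?_ ?_ (hFJ (sup t)) ?_
    · intro w hw
      simp only [mem_iUnion] at hw
      obtain ⟨i, _, hw⟩ := hw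
      exact hWA i hw
    · obtain ⟨i, hi⟩ := hne t
      obtain ⟨w, hw⟩ := (hτ i).2.1
      refine ⟨w, ?_⟩
      simp only [mem_iUnion]
      exact ⟨i, hi, hw⟩
    · intro w _ hw
      refine hlocA t w ?_
      rintro ⟨i, hi, rfl⟩
      apply hw
      simp only [mem_iUnion]
      exact ⟨i, Finset.mem_coe.1 hi, hv t i (Finset.mem_coe.1 hi)⟩
  refine fin_gen (M := M) (C := C) hk hn (p := p) hpinj hpC hI (G := G) sup ?_ ?_ ?_ la lb T hT
    ?_ ?_ cert
  · intro t
    rw [hcl]
    refine M.closure_subset_closure (ins_mono ?_) (hGJ t)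
    intro w hw
    simp only [mem_iUnion] at hw ⊢
    obtain ⟨i, _, hw⟩ := hw
    exact ⟨i, Finset.mem_univ i, hw⟩
  · -- the element is visible in its clusters
    intro t i hi hcon
    have hR : ∀ w ∈ W i, (⋃ j ∈ {j | j ≠ i}, τ j) ∪ p '' {i}ᶜ ⊆ Hx M S ends w := by
      rintro w hw x (hx | ⟨j, hj, rfl⟩)
      · simp only [mem_iUnion] at hx
        obtain ⟨j, hj, hx⟩ := hx
        have hji : j ≠ i := hj
        have h1 := (hτ j).1 hx
        refine M.mem_closure_of_mem' (X := ins S ends {w}ᶜ) ⟨h1.1, ?_⟩ (hB.sub h1.1)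
        intro u hu huw
        rw [mem_singleton_iff] at huw
        subst huw
        exact Set.disjoint_left.1 (hWd j i hji) (h1.2 u hu) hw
      · have hji : j ≠ i := hj
        refine M.mem_closure_of_mem' (X := ins S ends {w}ᶜ) ⟨(hp j).1, ?_⟩ (hB.sub (hp j).1)
        intro u hu huw
        rw [mem_singleton_iff] at huw
        subst huw
        exact Set.disjoint_left.1 (hWd j i hji) ((hp j).2 u hu) hw
    have hvis : G t ∉ Hx M S ends (v t i) := by
      have h1 : v t i ∈ CWL.Loc M S ends (G t) := by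
        rw [hloc t]
        exact ⟨i, Finset.mem_coe.2 hi, rfl⟩
      exact h1
    refine port_single (M := M) (S := S) (ends := ends) (hWf i) (τ := τ i) (hτ i)
      (M.ground_finite.subset (fun x hx => hB.sub ((hτ i).1 hx).1)) (hv t i hi) (z := G t) hR ?_
      hvis ?_ (fun x hx => hB.sub ((hτ i).1 hx).1) ?_
    · intro w hw hwb
      refine hlocA t w ?_
      rintro ⟨j, hj, rfl⟩
      by_cases hji : j = i
      · subst hji
        exact hwb rfl
      · exact Set.disjoint_left.1 (hWd j i hji) (hv t j (Finset.mem_coe.1 hj)) hw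
    · intro w _ _ e he hwe
      exact not_mem_Hx' hB ((hτ i).1 he).1 hwe
    · refine M.closure_subset_closure ?_ hcon
      rintro x (hx | hx)
      · obtain ⟨j, hj⟩ := mem_iUnion.1 hx
        by_cases hji : j = i
        · subst hji
          exact Or.inr hj
        · refine Or.inl (Or.inl ?_)
          simp only [mem_iUnion]
          exact ⟨j, hji, hj⟩
      · exact Or.inl (Or.inr hx)
  · -- and invisible in the other clusters
    intro t i hi
    have h1 := hGJ t
    rw [← (hFJ (sup t)).closure hB (hUf _)] at h1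
    refine M.closure_subset_closure ?_ h1
    intro x hx
    simp only [mem_iUnion] at hx
    obtain ⟨j, hj, hx⟩ := hx
    rcases hx with rfl | hx
    · refine Or.inr ⟨j, ?_, rfl⟩
      rintro rfl
      exact hi hj
    · exact Or.inl (mem_iUnion.2 ⟨j, hx⟩)
  · intro l hl e he
    obtain ⟨heS, x, hx, y, hy, hxy⟩ := hTe l hl e he
    rw [hcl]
    refine M.mem_closure_of_mem' ⟨heS, ?_⟩ (hB.sub heS)
    intro u hu
    rw [hxy] at hu
    simp only [Finset.mem_univ, iUnion_true, mem_iUnion]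
    rcases Sym2.mem_iff.1 hu with rfl | rfl
    · exact ⟨_, hx⟩
    · exact ⟨_, hy⟩
  · intro l hl e he e' he' hee
    obtain ⟨heS, x, hx, y, hy, hxy⟩ := hTe l hl e he
    obtain ⟨heS', x', hx', y', hy', hxy'⟩ := hTe l hl e' he'
    have hd := hWd _ _ (hlab l hl)
    have htree := Arb.join hd (hτ (la l)) (hτ (lb l)) heS hxy hx hy
    have he'in : e' ∈ ins S ends (W (la l) ∪ W (lb l)) := by
      refine ⟨heS', ?_⟩
      intro u hu
      rw [hxy'] at hu
      rcases Sym2.mem_iff.1 hu with rfl | rfl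
      · exact Or.inl hx'
      · exact Or.inr hy'
    have he'n : e' ∉ insert e (τ (la l) ∪ τ (lb l)) := by
      rintro (h | h | h)
      · exact hee h.symm
      · have h1 := ((hτ (la l)).1 h).2 y' (by rw [hxy']; simp)
        exact Set.disjoint_left.1 hd h1 hy'
      · have h1 := ((hτ (lb l)).1 h).2 x' (by rw [hxy']; simp)
        exact Set.disjoint_left.1 hd hx' h1
    have h2 := htree.subset_closure hB ((hWf _).union (hWf _)) he'in he'n
    have h3 : M.closure (insert e' (insert e (τ (la l) ∪ τ (lb l)))) ⊆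
        M.closure (C ∪ {e, e'}) := by
      refine M.closure_subset_closure ?_
      rintro z (rfl | rfl | hz | hz)
      · exact Or.inr (by simp)
      · exact Or.inr (by simp)
      · exact Or.inl (mem_iUnion.2 ⟨_, hz⟩)
      · exact Or.inl (mem_iUnion.2 ⟨_, hz⟩)
    exact ⟨h3 (h2 (ins_mono subset_union_left (hp (la l)))),
      h3 (h2 (ins_mono subset_union_right (hp (lb l))))⟩

open Gad in
/-- The pattern `(1,5,2)`, `(4,6,3)`, `(3,7,1)`. -/
theorem fin4_cl {M : Matroid α} [M.Finite] {S : Set α} {ends : α → Sym2 V} (hB : Bic M S ends)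
    {A : Set V} (hAf : A.Finite) (hSA : ∀ e ∈ S, ∀ v ∈ ends e, v ∈ A) (hA : VConn S ends A)
    {W : Fin 7 → Set V} (hWd : ∀ i j, i ≠ j → Disjoint (W i) (W j))
    {τ : Fin 7 → Set α} (hτ : ∀ i, Arb S ends (W i) (τ i))
    {p : Fin 7 → α} (hp : ∀ i, p i ∈ ins S ends (W i)) (hpτ : ∀ i, p i ∉ τ i)
    {G : Fin 3 → α} (hG : ∀ t, G t ∈ M.closure S) (v : Fin 3 → Fin 7 → V)
    (hv : ∀ t, ∀ i ∈ sup4 t, v t i ∈ W i)
    (hloc : ∀ t, CWL.Loc M S ends (G t) = v t '' (sup4 t : Set (Fin 7)))
    (T : ℕ → Finset α) (hT : ∀ l < 8, 2 ^ 18 < (T l).card)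
    (hTe : ∀ l < 8, ∀ e ∈ T l, e ∈ S ∧
      ∃ x ∈ W (la4 l), ∃ y ∈ W (lb4 l), ends e = s(x, y)) : HasUniformMinor M 4 := by
  refine fin_cl hB hAf hSA hA (n := 7) (g := 3) (k := 4) (by norm_num) rfl hWd hτ hp hpτ sup4 ?_
    hG v hv hloc la4 lb4 ?_ T hT hTe cert4
  · decide
  · decide

end KF4
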