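import Pool.Agent.Helper34.BIC.Unif

/-!
# Finite part of `K4`: gadgets and generic rungs

`fin_gen`: `n` nodes `p i` (joints), `g` gadgets with exact supports, `2k` lines (pairs of nodes)
with many pairwise non-parallel rungs, `n = g + k`.  If every set of `k` lines has a certificate
(distinct nodes on the lines, the other nodes matched in triangular form with the gadgets) then
there is a `U_{k,2k}`-minor.  The matroid is arbitrary.
-/

open Set BIC
open scoped Matroid

namespace KF4

variable {α : Type*}

/-- Free choice on lines. -/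
lemma free_choice {M : Matroid α} {C A₀ : Set α} (hC : C ⊆ M.E) (hA₀ : A₀.Finite) (m : ℕ) (u v : ℕ → α)
    (T : ℕ → Finset α) (hT : ∀ l < m, 2 ^ (A₀.ncard + m) < (T l).card)
    (hT2 : ∀ l < m, ∀ e ∈ T l, ∀ e' ∈ T l, e ≠ e' →
      u l ∈ M.closure (C ∪ {e, e'}) ∧ v l ∈ M.closure (C ∪ {e, e'})) :
    ∃ x : ℕ → α, ∀ l < m, x l ∈ T l ∧ ∀ A ⊆ A₀ ∪ x '' {j | j < l}, x l ∈ M.closure (C ∪ A) →
      u l ∈ M.closure (C ∪ A) ∧ v l ∈ M.closure (C ∪ A) := by
  classical
  suffices h : ∀ m' ≤ m, ∃ x : ℕ → α, ∀ l < m', x l ∈ T l ∧ ∀ A ⊆ A₀ ∪ x '' {j | j < l},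
      x l ∈ M.closure (C ∪ A) → u l ∈ M.closure (C ∪ A) ∧ v l ∈ M.closure (C ∪ A) from
    h m le_rfl
  intro m'
  induction m' with
  | zero =>
    intro _
    rcases isEmpty_or_nonempty α with hα | ⟨⟨a⟩⟩
    · rcases Nat.eq_zero_or_pos m with hm | hm
      · subst hm
        exact ⟨fun l => u l, fun l hl => absurd hl (Nat.not_lt_zero _)⟩
      · have h1 := hT 0 hm
        have h2 : (T 0).card = 0 := by
          rw [Finset.card_eq_zero, Finset.eq_empty_iff_forall_notMem]
          intro a
          exact (hα.false a).elim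
        rw [h2] at h1
        exact absurd h1 (Nat.not_lt_zero _)
    · exact ⟨fun _ => a, fun l hl => absurd hl (Nat.not_lt_zero _)⟩
  | succ l ih =>
    intro hl
    obtain ⟨x, hx⟩ := ih (by omega)
    set Z : Set α := A₀ ∪ x '' {j | j < l} with hZ
    have hfin : {j : ℕ | j < l}.Finite := Set.finite_lt_nat l
    have hZf : Z.Finite := hA₀.union (hfin.image _)
    have hZc : Z.ncard ≤ A₀.ncard + l := by
      refine (Set.ncard_union_le _ _).trans ?_
      have h1 : (x '' {j : ℕ | j < l}).ncard ≤ {j : ℕ | j < l}.ncard := Set.ncard_image_le hfin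
      have h2 : {j : ℕ | j < l}.ncard = l := by
        have : {j : ℕ | j < l} = (Finset.range l : Set ℕ) := by ext; simp
        rw [this, Set.ncard_coe_finset, Finset.card_range]
      omega
    -- a good candidate
    obtain ⟨e, heT, he⟩ : ∃ e ∈ T l, ∀ A ⊆ Z, e ∈ M.closure (C ∪ A) →
        u l ∈ M.closure (C ∪ A) ∧ v l ∈ M.closure (C ∪ A) := by
      by_contra hcon
      push Not at hcon
      choose! A hA using hcon
      set P : Finset (Finset α) := hZf.toFinset.powerset with hP
      have hAf : ∀ e ∈ T l, (A e).Finite := fun e he => hZf.subset (hA e he).1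
      have hmaps : ∀ e ∈ T l, (fun e => if h : (A e).Finite then h.toFinset else ∅) e ∈ P := by
        intro e he
        simp only [hAf e he, dif_pos, hP, Finset.mem_powerset]
        intro z hz
        rw [Set.Finite.mem_toFinset] at hz ⊢
        exact (hA e he).1 hz
      have hinj : Set.InjOn (fun e => if h : (A e).Finite then h.toFinset else ∅)
          (T l : Set α) := by
        intro e he e' he' hee
        by_contra hne
        simp only [hAf e he, hAf e' he', dif_pos] at hee
        have hee' : A e = A e' := by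
          have := congrArg (fun s : Finset α => (s : Set α)) hee
          simpa using this
        obtain ⟨_, h2, h3⟩ := hA e he
        obtain ⟨_, h5, _⟩ := hA e' he'
        obtain ⟨h7, h8⟩ := hT2 l (by omega) e he e' he' hne
        have hsub : M.closure (C ∪ {e, e'}) ⊆ M.closure (C ∪ A e) := by
          refine M.closure_subset_closure_of_subset_closure ?_
          rintro z (hz | rfl | rfl)
          · exact M.mem_closure_of_mem' (Or.inl hz) (hC hz)
          · exact h2
          · rw [hee']; exact h5
        exact h3 (hsub h7) (hsub h8)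
      have h9 := Finset.card_le_card_of_injOn _ hmaps hinj
      rw [hP, Finset.card_powerset, ← Set.ncard_eq_toFinset_card _ hZf] at h9
      have h10 := hT l (by omega)
      have h11 : 2 ^ Z.ncard ≤ 2 ^ (A₀.ncard + m) := Nat.pow_le_pow_right (by norm_num) (by omega)
      omega
    refine ⟨Function.update x l e, ?_⟩
    intro l' hl'
    have himg : ∀ l' ≤ l, Function.update x l e '' {j | j < l'} = x '' {j | j < l'} := by
      intro l' hl'
      refine Set.image_congr ?_
      intro j hj
      have hj' : j < l' := hj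
      exact Function.update_of_ne (by omega) _ _
    rcases Nat.lt_succ_iff_lt_or_eq.1 hl' with h1 | h1
    · rw [Function.update_of_ne (by omega), himg l' h1.le]
      exact hx l' h1
    · subst h1
      rw [Function.update_self, himg l' le_rfl]
      exact ⟨heT, he⟩

/-- Gadgets replace nodes, in triangular order. -/
lemma gad_indep {ι κ : Type*} {M : Matroid α} {C : Set α} {p : ι → α}
    (hI : M.Indep (C ∪ range p))
    {G : κ → α} {sup : κ → Set ι} (hGE : ∀ t, G t ∈ M.E)
    (hG0 : ∀ t, ∀ i ∈ sup t, G t ∉ M.closure (C ∪ p '' {i}ᶜ))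
    (hG1 : ∀ t, ∀ i ∉ sup t, G t ∈ M.closure (C ∪ p '' {i}ᶜ))
    {c : κ → ι} (hc : Function.Injective c) (hcs : ∀ t, c t ∈ sup t) {rk : κ → ℕ}
    (hrk : ∀ s t, s ≠ t → c t ∈ sup s → rk t < rk s) (K : Finset κ) :
    M.Indep (C ∪ G '' K ∪ p '' (c '' K)ᶜ) ∧ InjOn G K ∧
      ∀ t ∈ K, G t ∉ C ∧ ∀ i ∉ c '' K, G t ≠ p i := by
  classical
  induction K using Finset.strongInduction with
  | H K ih =>
    rcases K.eq_empty_or_nonempty with rfl | hne
    · refine ⟨?_, by simp, by simp⟩
      simpa using hI
    · obtain ⟨t, htK, hmax⟩ := Finset.exists_max_image K rk hne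
      set K' := K.erase t with hK'
      obtain ⟨h1, h2, h3⟩ := ih K' (Finset.erase_ssubset htK)
      have hKK : (K : Set κ) = insert t (K' : Set κ) := by
        rw [hK', ← Finset.coe_insert, Finset.insert_erase htK]
      have htK' : t ∉ (K' : Set κ) := by simp [hK']
      have hct : c t ∉ c '' (K' : Set κ) := by
        rintro ⟨s, hs, hst⟩
        exact htK' (hc hst ▸ hs)
      have hcK : (c '' (K : Set κ))ᶜ = (c '' (K' : Set κ))ᶜ \ {c t} := by
        rw [hKK, image_insert_eq]
        ext i
        simp only [mem_compl_iff, mem_insert_iff, not_or, mem_sdiff, mem_singleton_iff]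
        tauto
      set X := C ∪ G '' (K' : Set κ) ∪ p '' (c '' (K : Set κ))ᶜ with hX
      have hXsub : X ⊆ M.closure (C ∪ p '' {c t}ᶜ) := by
        have hCE : C ∪ p '' {c t}ᶜ ⊆ M.E :=
          (union_subset_union_right C (image_subset_range _ _)).trans hI.subset_ground
        rintro z ((hz | ⟨s, hs, rfl⟩) | ⟨i, hi, rfl⟩)
        · exact M.mem_closure_of_mem' (Or.inl hz) (hCE (Or.inl hz))
        · refine hG1 s _ ?_
          intro hcs'
          have hst : s ≠ t := fun h => htK' (h ▸ hs)
          have h4 := hrk s t hst hcs'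
          have h5 := hmax s (Finset.mem_of_mem_erase (Finset.mem_coe.1 hs))
          omega
        · rw [hcK] at hi
          exact M.mem_closure_of_mem' (Or.inr ⟨i, hi.2, rfl⟩) (hCE (Or.inr ⟨i, hi.2, rfl⟩))
      have hGX : G t ∉ M.closure X := fun h =>
        hG0 t _ (hcs t) (M.closure_subset_closure_of_subset_closure hXsub h)
      have hXi : M.Indep X := h1.subset (by
        rw [hX, hcK]
        exact union_subset_union_right _ (image_mono sdiff_subset))
      have hins : M.Indep (insert (G t) X) := by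
        rw [hXi.insert_indep_iff]
        exact Or.inl ⟨hGE t, hGX⟩
      have hGtX : G t ∉ X := fun h => hGX (M.mem_closure_of_mem' h (hGE t))
      refine ⟨?_, ?_, ?_⟩
      · have e : C ∪ G '' (K : Set κ) ∪ p '' (c '' (K : Set κ))ᶜ = insert (G t) X := by
          rw [hX, hKK, image_insert_eq, ← hKK]
          ext z
          simp only [mem_union, mem_insert_iff]
          tauto
        rw [e]
        exact hins
      · rw [hKK, injOn_insert htK']
        refine ⟨h2, ?_⟩
        intro h
        exact hGtX (Or.inl (Or.inr h))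
      · intro s hs
        have hs' : s ∈ insert t (K' : Set κ) := hKK ▸ (Finset.mem_coe.2 hs)
        have hsubc : ∀ i ∉ c '' (K : Set κ), i ∉ c '' (K' : Set κ) := by
          intro i hi hi'
          refine hi (image_mono ?_ hi')
          rw [hKK]; exact subset_insert _ _
        rcases hs' with rfl | hs'
        · refine ⟨fun h => hGtX (Or.inl (Or.inl h)), ?_⟩
          intro i hi h
          refine hGtX (Or.inr ?_)
          rw [h]
          exact ⟨i, hi, rfl⟩
        · obtain ⟨h4, h5⟩ := h3 s (Finset.mem_coe.1 hs')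
          exact ⟨h4, fun i hi => h5 i (hsubc i hi)⟩

/-- Generic rungs replace nodes. -/
lemma rung_indep {M : Matroid α} {C P : Set α} {u v x : ℕ → α} {m : ℕ}
    (hxE : ∀ l < m, x l ∈ M.E)
    (hx : ∀ l < m, ∀ A ⊆ P ∪ x '' {j | j < l}, x l ∈ M.closure (C ∪ A) →
      u l ∈ M.closure (C ∪ A) ∧ v l ∈ M.closure (C ∪ A))
    {σ : ℕ → α} (hσ : ∀ l, σ l = u l ∨ σ l = v l) (Q : Finset ℕ) :
    ∀ A : Set α, (∀ l ∈ Q, l < m) → A ⊆ P → (∀ l ∈ Q, σ l ∈ P) → InjOn σ Q →
      (∀ l ∈ Q, σ l ∉ C ∪ A) → M.Indep (C ∪ A ∪ σ '' Q) →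
      M.Indep (C ∪ A ∪ x '' Q) ∧ InjOn x Q ∧ ∀ l ∈ Q, x l ∉ C ∪ A := by
  classical
  induction Q using Finset.strongInduction with
  | H Q ih =>
    intro A hQm hAP hσP hinj hdis hI
    rcases Q.eq_empty_or_nonempty with rfl | hne
    · refine ⟨?_, by simp, by simp⟩
      simpa using hI
    · obtain ⟨l, hlQ, hmax⟩ := Finset.exists_max_image Q (fun i => i) hne
      set Q' := Q.erase l with hQ'
      have hQQ : (Q : Set ℕ) = insert l (Q' : Set ℕ) := by
        rw [hQ', ← Finset.coe_insert, Finset.insert_erase hlQ]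
      have hlQ' : l ∉ (Q' : Set ℕ) := by simp [hQ']
      have hQ'Q : ∀ i ∈ Q', i ∈ Q := fun i hi => Finset.mem_of_mem_erase hi
      obtain ⟨h1, h2, h3⟩ := ih Q' (Finset.erase_ssubset hlQ) (insert (σ l) A)
        (fun i hi => hQm i (hQ'Q i hi)) (insert_subset (hσP l hlQ) hAP)
        (fun i hi => hσP i (hQ'Q i hi)) (hinj.mono (by rw [hQQ]; exact subset_insert _ _))
        (by
          intro i hi
          have h4 := hdis i (hQ'Q i hi)
          rintro (h | rfl' | h)
          · exact h4 (Or.inl h)
          · have := hinj (Finset.mem_coe.2 (hQ'Q i hi)) (Finset.mem_coe.2 hlQ) rfl'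
            exact hlQ' (this ▸ hi)
          · exact h4 (Or.inr h))
        (by
          have e : C ∪ insert (σ l) A ∪ σ '' (Q' : Set ℕ) = C ∪ A ∪ σ '' (Q : Set ℕ) := by
            rw [hQQ, image_insert_eq]
            ext z
            simp only [mem_union, mem_insert_iff]
            tauto
          rw [e]; exact hI)
      set X := C ∪ A ∪ x '' (Q' : Set ℕ) with hX
      have hXi : M.Indep (insert (σ l) X) := by
        have e : C ∪ insert (σ l) A ∪ x '' (Q' : Set ℕ) = insert (σ l) X := by
          rw [hX]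
          ext z
          simp only [mem_union, mem_insert_iff]
          tauto
        rw [← e]; exact h1
      have hσX : σ l ∉ X := by
        rintro (h | ⟨i, hi, hil⟩)
        · exact hdis l hlQ h
        · exact h3 i (Finset.mem_coe.1 hi) (Or.inr (Or.inl hil))
      have hσcl : σ l ∉ M.closure X := by
        have h4 : M.Indep X := hXi.subset (subset_insert _ _)
        intro h
        rw [h4.insert_indep_iff] at hXi
        rcases hXi with h5 | h5
        · exact h5.2 h
        · exact hσX h5
      have hxcl : x l ∉ M.closure X := by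
        intro h
        have hA' : A ∪ x '' (Q' : Set ℕ) ⊆ P ∪ x '' {j | j < l} := by
          refine union_subset_union hAP (image_mono ?_)
          intro i hi
          have h4 := hmax i (hQ'Q i (Finset.mem_coe.1 hi))
          have h5 : i ≠ l := fun h => hlQ' (h ▸ hi)
          exact lt_of_le_of_ne h4 h5
        have h5 := hx l (hQm l hlQ) _ hA' (by rw [← union_assoc]; exact h)
        rw [← union_assoc] at h5
        rcases hσ l with h6 | h6
        · exact hσcl (h6 ▸ h5.1)
        · exact hσcl (h6 ▸ h5.2)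
      have hXi' : M.Indep X := hXi.subset (subset_insert _ _)
      have hxX : x l ∉ X := fun h => hxcl (M.mem_closure_of_mem' h (hxE l (hQm l hlQ)))
      refine ⟨?_, ?_, ?_⟩
      · have e : C ∪ A ∪ x '' (Q : Set ℕ) = insert (x l) X := by
          rw [hX, hQQ, image_insert_eq]
          ext z
          simp only [mem_union, mem_insert_iff]
          tauto
        rw [e, hXi'.insert_indep_iff]
        exact Or.inl ⟨hxE l (hQm l hlQ), hxcl⟩
      · rw [hQQ, injOn_insert hlQ']
        exact ⟨h2, fun h => hxX (Or.inr h)⟩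
      · intro i hi
        have hi' : i ∈ insert l (Q' : Set ℕ) := hQQ ▸ (Finset.mem_coe.2 hi)
        rcases hi' with rfl | hi'
        · exact fun h => hxX (Or.inl h)
        · intro h
          refine h3 i (Finset.mem_coe.1 hi') ?_
          rcases h with h | h
          · exact Or.inl h
          · exact Or.inr (Or.inr h)

/-- **Finite part, general form.** -/
theorem fin_gen {M : Matroid α} [M.Finite] {C : Set α} {n g k : ℕ} (hk : 2 ≤ k) (hn : n = g + k)
    {p : Fin n → α} (hp : Function.Injective p) (hpC : ∀ i, p i ∉ C)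
    (hI : M.Indep (C ∪ range p)) {G : Fin g → α} (sup : Fin g → Finset (Fin n))
    (hGE : ∀ t, G t ∈ M.closure (C ∪ range p))
    (hG0 : ∀ t, ∀ i ∈ sup t, G t ∉ M.closure (C ∪ p '' {i}ᶜ))
    (hG1 : ∀ t, ∀ i ∉ sup t, G t ∈ M.closure (C ∪ p '' {i}ᶜ))
    (la lb : ℕ → Fin n) (T : ℕ → Finset α)
    (hT : ∀ l < 2 * k, 2 ^ (n + g + 2 * k) < (T l).card)
    (hT1 : ∀ l < 2 * k, ∀ e ∈ T l, e ∈ M.closure (C ∪ range p))
    (hT2 : ∀ l < 2 * k, ∀ e ∈ T l, ∀ e' ∈ T l, e ≠ e' →
      p (la l) ∈ M.closure (C ∪ {e, e'}) ∧ p (lb l) ∈ M.closure (C ∪ {e, e'}))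
    (cert : ∀ Q ∈ (Finset.range (2 * k)).powersetCard k,
      ∃ (c : Fin g → Fin n) (rk : Fin g → ℕ) (σ : ℕ → Fin n), Function.Injective c ∧
        (∀ t, c t ∈ sup t) ∧ (∀ s t, s ≠ t → c t ∈ sup s → rk t < rk s) ∧
        (∀ l, σ l = la l ∨ σ l = lb l) ∧ InjOn σ Q ∧ ∀ l ∈ Q, ∀ t, σ l ≠ c t) :
    HasUniformMinor M k := by
  classical
  have hCE : C ⊆ M.E := subset_union_left.trans hI.subset_ground
  have hpE : ∀ i, p i ∈ M.E := fun i => hI.subset_ground (Or.inr ⟨i, rfl⟩)
  have hGE' : ∀ t, G t ∈ M.E := fun t => M.closure_subset_ground _ (hGE t)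
  set P : Set α := range G ∪ range p with hP
  have hPf : P.Finite := (finite_range G).union (finite_range p)
  have hPc : P.ncard ≤ n + g := by
    refine (Set.ncard_union_le _ _).trans ?_
    have h1 : (range G).ncard ≤ g := by
      rw [← image_univ]
      refine (Set.ncard_image_le (finite_univ)).trans ?_
      rw [Set.ncard_univ, Nat.card_eq_fintype_card, Fintype.card_fin]
    have h2 : (range p).ncard ≤ n := by
      rw [← image_univ]
      refine (Set.ncard_image_le (finite_univ)).trans ?_
      rw [Set.ncard_univ, Nat.card_eq_fintype_card, Fintype.card_fin]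
    omega
  obtain ⟨x, hx⟩ := free_choice (M := M) (C := C) (A₀ := P) hCE hPf (2 * k)
    (fun l => p (la l)) (fun l => p (lb l)) T (fun l hl => by
      have h1 := hT l hl
      have h2 : 2 ^ (P.ncard + 2 * k) ≤ 2 ^ (n + g + 2 * k) :=
        Nat.pow_le_pow_right (by norm_num) (by omega)
      omega) hT2
  obtain ⟨X, hX⟩ : ∃ X, X = M.closure (C ∪ range p) := ⟨_, rfl⟩
  rw [← hX] at hGE hT1
  have hXE : X ⊆ M.E := hX ▸ M.closure_subset_ground _
  have hxX : ∀ l < 2 * k, x l ∈ X := fun l hl => hT1 l hl _ (hx l hl).1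
  have hxE : ∀ l < 2 * k, x l ∈ M.E := fun l hl => hXE (hxX l hl)
  -- the independent sets
  have main : ∀ Q ∈ (Finset.range (2 * k)).powersetCard k,
      M.Indep (C ∪ range G ∪ x '' (Q : Set ℕ)) ∧ InjOn x Q ∧ (∀ l ∈ Q, x l ∉ C ∪ range G) ∧
        InjOn G univ ∧ ∀ t, G t ∉ C := by
    intro Q hQ
    obtain ⟨c, rk, σ, hc, hcs, hrk, hσ, hσi, hσc⟩ := cert Q hQ
    rw [Finset.mem_powersetCard] at hQ
    obtain ⟨h1, h2, h3⟩ := gad_indep (M := M) (C := C) (p := p) hI (G := G)
      (sup := fun t => (sup t : Set (Fin n))) hGE' (fun t i hi => hG0 t i (by simpa using hi))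
      (fun t i hi => hG1 t i (by simpa using hi)) hc (fun t => by simpa using hcs t)
      (rk := rk) (fun s t hst h => hrk s t hst (by simpa using h)) Finset.univ
    rw [Finset.coe_univ, image_univ, image_univ] at h1
    have h4 := rung_indep (M := M) (C := C) (P := P) (u := fun l => p (la l))
      (v := fun l => p (lb l)) (x := x) (m := 2 * k) hxE (fun l hl => (hx l hl).2)
      (σ := fun l => p (σ l)) (fun l => by
        rcases hσ l with h | h
        · exact Or.inl (by rw [h])
        · exact Or.inr (by rw [h])) Q (range G)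
      (fun l hl => Finset.mem_range.1 (hQ.1 hl)) subset_union_left
      (fun l _ => Or.inr ⟨_, rfl⟩) (fun l hl l' hl' h => hσi hl hl' (hp h))
      (fun l hl => by
        rintro (h | ⟨t, ht⟩)
        · exact hpC _ h
        · refine (h3 t (Finset.mem_univ t)).2 (σ l) ?_ ht
          rintro ⟨s, _, hs⟩
          exact hσc l hl s hs.symm)
      (h1.subset (by
        refine union_subset_union_right _ ?_
        rintro _ ⟨l, hl, rfl⟩
        refine ⟨σ l, ?_, rfl⟩
        rintro ⟨s, hs⟩
        exact hσc l hl s hs.symm))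
    refine ⟨h4.1, h4.2.1, h4.2.2, ?_, fun t => (h3 t (Finset.mem_univ t)).1⟩
    rw [Finset.coe_univ] at h2
    exact h2
  have ext2 : ∀ l < 2 * k, ∀ l' < 2 * k, ∃ Q ∈ (Finset.range (2 * k)).powersetCard k,
      l ∈ Q ∧ l' ∈ Q := by
    intro l hl l' hl'
    obtain ⟨Q, hQ1, hQ2, hQ3⟩ := Finset.exists_subsuperset_card_eq
      (s := ({l, l'} : Finset ℕ)) (t := Finset.range (2 * k)) (n := k) (by
        intro z hz
        rw [Finset.mem_insert, Finset.mem_singleton] at hz
        rcases hz with rfl | rfl <;> exact Finset.mem_range.2 (by assumption))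
      ((Finset.card_insert_le _ _).trans (by simpa using hk)) (by rw [Finset.card_range]; omega)
    exact ⟨Q, Finset.mem_powersetCard.2 ⟨hQ2, hQ3⟩, hQ1 (by simp), hQ1 (by simp)⟩
  have xinj : ∀ l < 2 * k, ∀ l' < 2 * k, x l = x l' → l = l' := by
    intro l hl l' hl' h
    obtain ⟨Q, hQ, h1, h2⟩ := ext2 l hl l' hl'
    exact (main Q hQ).2.1 h1 h2 h
  have xC : ∀ l < 2 * k, x l ∉ C ∪ range G := by
    intro l hl
    obtain ⟨Q, hQ, h1, _⟩ := ext2 l hl l hl
    exact (main Q hQ).2.2.1 l h1
  have hMX : (M ↾ X).Finite := Matroid.restrict_finite (M.ground_finite.subset hXE)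
  have hsub : C ∪ range p ⊆ X := hX ▸ M.subset_closure _ hI.subset_ground
  have hCf : C.Finite := M.ground_finite.subset hCE
  have hXr : M.eRk X = C.encard + n := by
    rw [hX, Matroid.eRk_closure_eq, hI.eRk_eq_encard,
      Set.encard_union_eq (by
        rw [Set.disjoint_left]
        rintro z hz ⟨i, rfl⟩
        exact hpC i hz)]
    congr 1
    rw [← image_univ, hp.injOn.encard_image, Set.encard_univ]
    simp
  have hminor : (M ↾ X) ≤m M := by
    have h1 := Matroid.contract_delete_isMinor M ∅ (M.E \ X)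
    rwa [Matroid.contract_empty, Matroid.delete_compl hXE] at h1
  have key : HasUniformMinor (M ↾ X) k := by
    refine uniform_minor (M := M ↾ X) k (C ∪ range G) x (fun i => x (k + i)) ?_ ?_ ?_ ?_ ?_ ?_
    · intro l hl l' hl' h
      have h1 : l < k := hl
      have h2 : l' < k := hl'
      exact xinj l (by omega) l' (by omega) h
    · intro l hl l' hl' h
      have h1 : l < k := hl
      have h2 : l' < k := hl'
      have := xinj (k + l) (by omega) (k + l') (by omega) h
      omega
    · intro i hi j hj h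
      have := xinj i (by omega) (k + j) (by omega) h
      omega
    · intro i hi
      exact xC i (by omega)
    · intro i hi
      exact xC (k + i) (by omega)
    · intro I B hIk hBk hc
      set Q : Finset ℕ := I ∪ B.image (fun i => k + i) with hQ
      have hdisj : Disjoint I (B.image (fun i => k + i)) := by
        rw [Finset.disjoint_left]
        intro a ha hb
        obtain ⟨b, hb, rfl⟩ := Finset.mem_image.1 hb
        have := hIk _ ha
        omega
      have hQm : Q ∈ (Finset.range (2 * k)).powersetCard k := by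
        rw [Finset.mem_powersetCard]
        constructor
        · intro z hz
          rw [Finset.mem_range]
          rcases Finset.mem_union.1 hz with h | h
          · have := hIk z h
            omega
          · obtain ⟨b, hb, rfl⟩ := Finset.mem_image.1 h
            have := hBk b hb
            omega
        · rw [hQ, Finset.card_union_of_disjoint hdisj, Finset.card_image_of_injective _
            (fun a b h => by simpa using h)]
          exact hc
      obtain ⟨h1, h2, h3, h4, h5⟩ := main Q hQm
      have e : C ∪ range G ∪ (x '' (I : Set ℕ) ∪ (fun i => x (k + i)) '' (B : Set ℕ)) =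
          C ∪ range G ∪ x '' (Q : Set ℕ) := by
        rw [hQ, Finset.coe_union, image_union, Finset.coe_image, image_image]
      rw [e]
      refine (Matroid.isBase_restrict_iff (M := M) (X := X) hXE).2 ?_
      refine h1.isBasis_of_eRk_ge (M.ground_finite.subset h1.subset_ground) ?_ ?_ hXE
      · rintro z ((hz | ⟨t, rfl⟩) | ⟨l, hl, rfl⟩)
        · exact hsub (Or.inl hz)
        · exact hGE t
        · exact hxX l (Finset.mem_range.1 ((Finset.mem_powersetCard.1 hQm).1 hl))
      · rw [hXr, h1.eRk_eq_encard, Set.encard_union_eq (by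
          rw [Set.disjoint_left]
          rintro z hz ⟨l, hl, rfl⟩
          exact h3 l hl hz), Set.encard_union_eq (by
          rw [Set.disjoint_left]
          rintro z hz ⟨t, rfl⟩
          exact h5 t hz), h2.encard_image, Set.encard_coe_eq_coe_finsetCard,
          (Finset.mem_powersetCard.1 hQm).2, ← image_univ, h4.encard_image, Set.encard_univ,
          ENat.card_eq_coe_fintype_card, Fintype.card_fin, hn]
        push_cast
        rw [add_assoc]
  obtain ⟨N, h1, h2⟩ := key
  exact ⟨N, h1.trans hminor, h2⟩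

/-! ### The pattern of helper34: `(1,5,2)`, `(4,6,3)`, `(3,7,1)` in series -/

/-- left ends of the eight lines -/
def la4 (l : ℕ) : Fin 7 := [0, 4, 2, 5, 4, 4, 5, 1].getD l 0

/-- right ends of the eight lines -/
def lb4 (l : ℕ) : Fin 7 := [4, 1, 5, 3, 5, 6, 6, 3].getD l 0

/-- supports of the three gadgets -/
def sup4 : Fin 3 → Finset (Fin 7) := ![{0, 4, 1}, {3, 5, 2}, {2, 6, 0}]

/-- certificates: nodes of the gadgets, order of the gadgets, choices on the lines -/
def tab4 : List ((Fin 3 → Fin 7) × (Fin 3 → ℕ) × List Bool) := [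
  (![0, 3, 2], ![0, 2, 1], [true, true, true, false, false, true, true, false]),
  (![1, 2, 0], ![2, 0, 1], [true, false, true, true, true, true, true, true]),
  (![0, 2, 6], ![0, 1, 2], [true, false, true, true, true, false, false, false]),
  (![0, 2, 6], ![0, 1, 2], [true, true, true, true, false, false, false, true]),
  (![0, 3, 2], ![0, 2, 1], [true, true, true, false, true, false, true, false]),
  (![1, 2, 0], ![2, 0, 1], [true, false, true, true, false, true, false, true]),
  (![0, 2, 6], ![0, 1, 2], [true, true, false, false, true, false, false, true]),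
  (![1, 3, 0], ![1, 2, 0], [true, false, false, false, true, false, true, false]),
  (![1, 3, 2], ![0, 2, 1], [false, false, true, false, false, true, false, false]),
  (![0, 3, 6], ![0, 1, 2], [true, true, false, false, true, false, false, false]),
  (![1, 3, 6], ![0, 1, 2], [false, false, false, false, false, false, false, false]),
  (![0, 2, 6], ![0, 1, 2], [false, false, true, true, false, false, false, false]),
  (![0, 2, 6], ![0, 1, 2], [true, true, false, true, true, false, false, false]),
  (![0, 3, 2], ![0, 2, 1], [true, true, false, false, true, true, false, false]),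
  (![0, 5, 2], ![0, 2, 1], [true, true, false, false, false, true, false, true]),
  (![1, 2, 0], ![2, 0, 1], [false, false, true, true, false, false, true, false]),
  (![4, 2, 0], ![2, 0, 1], [false, false, true, true, false, false, true, false])]

/-- the choice of nodes of a certificate -/
def sg4 (b : List Bool) (l : ℕ) : Fin 7 := if b.getD l false = true then lb4 l else la4 l

lemma tab4_ok : ∀ w ∈ tab4, Function.Injective w.1 ∧ (∀ t, w.1 t ∈ sup4 t) ∧
    (∀ s t, s ≠ t → w.1 t ∈ sup4 s → w.2.1 t < w.2.1 s) := by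
  decide +kernel

lemma tab4_cover : ∀ Q ∈ (Finset.range 8).powersetCard 4, ∃ w ∈ tab4,
    (∀ l ∈ Q, ∀ l' ∈ Q, sg4 w.2.2 l = sg4 w.2.2 l' → l = l') ∧
      ∀ l ∈ Q, ∀ t, sg4 w.2.2 l ≠ w.1 t := by
  decide +kernel

lemma cert4 : ∀ Q ∈ (Finset.range (2 * 4)).powersetCard 4,
      ∃ (c : Fin 3 → Fin 7) (rk : Fin 3 → ℕ) (σ : ℕ → Fin 7), Function.Injective c ∧
        (∀ t, c t ∈ sup4 t) ∧ (∀ s t, s ≠ t → c t ∈ sup4 s → rk t < rk s) ∧
        (∀ l, σ l = la4 l ∨ σ l = lb4 l) ∧ InjOn σ Q ∧ ∀ l ∈ Q, ∀ t, σ l ≠ c t := by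
  intro Q hQ
  obtain ⟨w, hw, h1, h2⟩ := tab4_cover Q hQ
  obtain ⟨h3, h4, h5⟩ := tab4_ok w hw
  refine ⟨w.1, w.2.1, sg4 w.2.2, h3, h4, h5, ?_, ?_, h2⟩
  · intro l
    unfold sg4
    split_ifs
    · exact Or.inr rfl
    · exact Or.inl rfl
  · intro l hl l' hl' h
    exact h1 l hl l' hl' h

end KF4
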